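import Pool.Agent.W519.J

/-!
# MP_c05f88_an: sets whose permutations extend to automorphisms

`X` is a complex manifold (Hausdorff, second countable) modelled on a complex normed space `E`.
`IsAut E F` (from `W519.J`) says that the homeomorphism `F` of `X` and its inverse are holomorphic.
`Tame E A`: `A` is infinite, closed and discrete in `X`, and every injective map `A → A` is the
restriction of a holomorphic automorphism of `X`.

Suppose `Z ⊆ X` is infinite and every bijection `Z → Z` is the restriction of an automorphism. Then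
* `Z` is closed and discrete in `X`;
* every infinite subset `A ⊆ Z` with `Z \ A` infinite is tame, so `Z` is a disjoint union of two
  tame sets;
* `Z` is tame iff it is contained in a tame set iff some automorphism of `X` maps `Z` into itself
  with infinite complement `Z \ F(Z)`.
-/

open Set Pool.Agent.W519.J
open scoped Manifold ContDiff

namespace Pool.Agent.Results.MP_c05f88_an.CoinfiniteSubsetsTame

/-- Subsets of tame sets are tame. -/
lemma tame_subset {E : Type*} [NormedAddCommGroup E] [NormedSpace ℂ E]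
    {X : Type*} [TopologicalSpace X] [ChartedSpace E X] {Z T : Set X} (hinf : Z.Infinite)
    (hcl : IsClosed Z) (hdisc : DiscreteTopology Z) (hZT : Z ⊆ T) (hT : Tame E T) : Tame E Z := by
  classical
  refine ⟨hinf, hcl, hdisc, ?_⟩
  intro f hf
  let g : T → T := fun t => if h : (t : X) ∈ Z then ⟨(f ⟨t.1, h⟩ : Z).1, hZT (f ⟨t.1, h⟩ : Z).2⟩ else t
  have hg1 : ∀ t : T, (t : X) ∈ Z ↔ ((g t : T) : X) ∈ Z := by
    intro t
    by_cases h : (t : X) ∈ Z
    · have : ((g t : T) : X) = (f ⟨t.1, h⟩ : Z).1 := by simp only [g]; rw [dif_pos h]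
      rw [this]
      exact ⟨fun _ => (f ⟨t.1, h⟩ : Z).2, fun _ => h⟩
    · have : ((g t : T) : X) = t.1 := by simp only [g]; rw [dif_neg h]
      rw [this]
  have hg : Function.Injective g := by
    intro a b hab
    have hab' : ((g a : T) : X) = ((g b : T) : X) := congrArg (fun t : T => (t : X)) hab
    by_cases ha : (a : X) ∈ Z
    · have hb : (b : X) ∈ Z := by rw [hg1 b, ← hab', ← hg1 a]; exact ha
      have ea : ((g a : T) : X) = (f ⟨a.1, ha⟩ : Z).1 := by simp only [g]; rw [dif_pos ha]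
      have eb : ((g b : T) : X) = (f ⟨b.1, hb⟩ : Z).1 := by simp only [g]; rw [dif_pos hb]
      rw [ea, eb] at hab'
      have h3 := hf (Subtype.ext hab')
      exact Subtype.ext (congrArg (fun z : Z => (z : X)) h3)
    · have hb : (b : X) ∉ Z := by rw [hg1 b, ← hab', ← hg1 a]; exact ha
      have ea : ((g a : T) : X) = a.1 := by simp only [g]; rw [dif_neg ha]
      have eb : ((g b : T) : X) = b.1 := by simp only [g]; rw [dif_neg hb]
      rw [ea, eb] at hab'
      exact Subtype.ext hab'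
  obtain ⟨F, hF, hFt⟩ := hT.2.2.2 g hg
  refine ⟨F, hF, ?_⟩
  intro z
  have h := hFt ⟨z.1, hZT z.2⟩
  have e : ((g ⟨z.1, hZT z.2⟩ : T) : X) = (f z : Z).1 := by
    simp only [g]; rw [dif_pos z.2]
  rw [e] at h
  exact h

/-- An infinite set is the disjoint union of two infinite sets. -/
lemma split {X : Type*} {Z : Set X} (hc : Countable Z) (hinf : Z.Infinite) :
    ∃ A ⊆ Z, A.Infinite ∧ (Z \ A).Infinite := by
  have : Infinite Z := hinf.to_subtype
  obtain ⟨f, hf, hr⟩ := exists_coinf_inj (α := Z)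
  refine ⟨(fun z : Z => (z : X)) '' (range f), ?_, ?_, ?_⟩
  · rintro _ ⟨z, _, rfl⟩; exact z.2
  · exact (infinite_range_of_injective hf).image (Subtype.coe_injective.injOn)
  · have h5 : ((fun z : Z => (z : X)) '' (range f)ᶜ).Infinite :=
      hr.image (Subtype.coe_injective.injOn)
    refine h5.mono ?_
    rintro _ ⟨z, hz, rfl⟩
    refine ⟨z.2, ?_⟩
    rintro ⟨w, hw, hwz⟩
    have : w = z := Subtype.ext hwz
    rw [this] at hw
    exact hz hw

theorem result
    (E : Type*) [NormedAddCommGroup E] [NormedSpace ℂ E]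
    (X : Type*) [TopologicalSpace X] [T2Space X] [SecondCountableTopology X]
    [ChartedSpace E X] [IsManifold 𝓘(ℂ, E) 1 X]
    (Z : Set X) (hinf : Z.Infinite)
    (hZ : ∀ f : Z ≃ Z, ∃ F : X ≃ₜ X, IsAut E F ∧ ∀ z : Z, F z = f z) :
    IsClosed Z ∧ DiscreteTopology Z ∧
    (∀ A ⊆ Z, A.Infinite → (Z \ A).Infinite → Tame E A) ∧
    (∃ A B : Set X, A ∪ B = Z ∧ Disjoint A B ∧ Tame E A ∧ Tame E B) ∧
    (Tame E Z ↔ ∃ F : X ≃ₜ X, IsAut E F ∧ F '' Z ⊆ Z ∧ (Z \ F '' Z).Infinite) ∧
    (Tame E Z ↔ ∃ T : Set X, Tame E T ∧ Z ⊆ T) := by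
  obtain ⟨h1, h2⟩ := closed_discrete hZ
  have hc : Countable Z := countable_of_closed_discrete h2
  refine ⟨h1, h2, fun A hA hAi hAc => tame_of_coinfinite hZ hA hAi hAc, ?_, tame_iff hinf hZ, ?_⟩
  · obtain ⟨A, hA, hAi, hAc⟩ := split hc hinf
    refine ⟨A, Z \ A, union_sdiff_cancel hA, disjoint_sdiff_right,
      tame_of_coinfinite hZ hA hAi hAc, tame_of_coinfinite hZ sdiff_subset hAc ?_⟩
    rwa [Set.sdiff_sdiff_cancel_left hA]
  · exact ⟨fun h => ⟨Z, h, subset_rfl⟩, fun ⟨T, hT, hZT⟩ => tame_subset hinf h1 h2 hZT hT⟩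

end Pool.Agent.Results.MP_c05f88_an.CoinfiniteSubsetsTame
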